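import Mathlib

/-!
# MP_2414c2_co : the random half of a small neighbourhood has no maximum clique

Hajnal's theorem on the maximum cliques of a graph and the decay along the levels of the cube
which it implies.
-/

set_option autoImplicit false

namespace Pool.Agent.W_2414c2_h93

open Finset

variable {V : Type*} [DecidableEq V]

open Classical in
/-- **Hajnal.** The maximum cliques inside `N`: intersection plus union have at least `2u`
elements. -/
theorem hajnal (G : SimpleGraph V) (N : Finset V) (u : ℕ)
    (hmax : ∀ K : Finset V, K ⊆ N → G.IsClique (K : Set V) → K.card ≤ u)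
    (F : Finset (Finset V)) (hF : F.Nonempty)
    (hK : ∀ K ∈ F, K ⊆ N ∧ G.IsClique (K : Set V) ∧ K.card = u) :
    2 * u ≤ (N.filter (fun x => ∀ K ∈ F, x ∈ K)).card +
      (N.filter (fun x => ∃ K ∈ F, x ∈ K)).card := by
  induction hF using Finset.Nonempty.cons_induction with
  | singleton K =>
    have h := hK K (by simp)
    have h1 : N.filter (fun x => ∀ K' ∈ ({K} : Finset (Finset V)), x ∈ K') = K := by
      ext x
      simp only [mem_filter, mem_singleton, forall_eq]
      exact ⟨fun h => h.2, fun hx => ⟨h.1 hx, hx⟩⟩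
    have h2 : N.filter (fun x => ∃ K' ∈ ({K} : Finset (Finset V)), x ∈ K') = K := by
      ext x
      simp only [mem_filter, mem_singleton, exists_eq_left]
      exact ⟨fun h => h.2, fun hx => ⟨h.1 hx, hx⟩⟩
    rw [h1, h2]
    omega
  | cons K F' hKF hF' ih =>
    have ih' := ih (fun K' hK' => hK K' (by simp [hK']))
    have h := hK K (by simp)
    set C : Finset V := N.filter (fun x => ∀ K' ∈ F', x ∈ K') with hC
    set U : Finset V := N.filter (fun x => ∃ K' ∈ F', x ∈ K') with hU
    have h1 : N.filter (fun x => ∀ K' ∈ Finset.cons K F' hKF, x ∈ K') = C ∩ K := by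
      ext x
      simp only [hC, mem_filter, mem_cons, forall_eq_or_imp, mem_inter]
      tauto
    have h2 : N.filter (fun x => ∃ K' ∈ Finset.cons K F' hKF, x ∈ K') = U ∪ K := by
      ext x
      simp only [hU, mem_filter, mem_cons, exists_eq_or_imp, mem_union]
      constructor
      · rintro ⟨hx, h' | h'⟩
        · exact Or.inr h'
        · exact Or.inl ⟨hx, h'⟩
      · rintro (⟨hx, h'⟩ | h')
        · exact ⟨hx, Or.inr h'⟩
        · exact ⟨h.1 h', Or.inl h'⟩
    rw [h1, h2]
    obtain ⟨K0, hK0⟩ := hF'
    have hCU : C ⊆ U := by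
      intro x hx
      rw [hC, mem_filter] at hx
      rw [hU, mem_filter]
      exact ⟨hx.1, K0, hK0, hx.2 K0 hK0⟩
    have hQ : ((K ∩ U) ∪ C).card ≤ u := by
      apply hmax
      · intro x hx
        rw [mem_union, mem_inter] at hx
        rcases hx with hx | hx
        · exact h.1 hx.1
        · rw [hC, mem_filter] at hx
          exact hx.1
      · intro x hx y hy hxy
        simp only [coe_union, coe_inter, Set.mem_union, Set.mem_inter_iff, mem_coe] at hx hy
        rcases hx with hx | hx
        · rcases hy with hy | hy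
          · exact h.2.1 (mem_coe.2 hx.1) (mem_coe.2 hy.1) hxy
          · obtain ⟨K', hK', hxK'⟩ := (mem_filter.1 hx.2).2
            have hyK' := (mem_filter.1 hy).2 K' hK'
            exact (hK K' (by simp [hK'])).2.1 (mem_coe.2 hxK') (mem_coe.2 hyK') hxy
        · rcases hy with hy | hy
          · obtain ⟨K', hK', hyK'⟩ := (mem_filter.1 hy.2).2
            have hxK' := (mem_filter.1 hx).2 K' hK'
            exact (hK K' (by simp [hK'])).2.1 (mem_coe.2 hxK') (mem_coe.2 hyK') hxy
          · have hxK' := (mem_filter.1 hx).2 K0 hK0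
            have hyK' := (mem_filter.1 hy).2 K0 hK0
            exact (hK K0 (by simp [hK0])).2.1 (mem_coe.2 hxK') (mem_coe.2 hyK') hxy
    have h3 := Finset.card_union_add_card_inter (K ∩ U) C
    have h4 : ((K ∩ U) ∩ C).card ≤ (C ∩ K).card := by
      apply Finset.card_le_card
      intro x hx
      simp only [mem_inter] at hx ⊢
      exact ⟨hx.2, hx.1.1⟩
    have h5 := Finset.card_union_add_card_inter U K
    have h6 : (U ∩ K).card = (K ∩ U).card := by rw [Finset.inter_comm]
    omega

open Classical in
/-- The `k`-subsets of `N` which contain a clique of size `u`. -/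
noncomputable def fam (G : SimpleGraph V) (N : Finset V) (u k : ℕ) : Finset (Finset V) :=
  (N.powersetCard k).filter (fun S => ∃ K : Finset V, K ⊆ S ∧ G.IsClique (K : Set V) ∧ K.card = u)

theorem mem_fam {G : SimpleGraph V} {N : Finset V} {u k : ℕ} {S : Finset V} :
    S ∈ fam G N u k ↔ (S ⊆ N ∧ S.card = k) ∧
      ∃ K : Finset V, K ⊆ S ∧ G.IsClique (K : Set V) ∧ K.card = u := by
  classical
  simp [fam, Finset.mem_powersetCard]

theorem chain (G : SimpleGraph V) (N : Finset V) (u k : ℕ)
    (hmax : ∀ K : Finset V, K ⊆ N → G.IsClique (K : Set V) → K.card ≤ u)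
    (_hk : k + 1 ≤ 2 * u) :
    (fam G N u k).card * (N.card - k) ≤ (fam G N u (k + 1)).card * (2 * (k + 1 - u)) := by
  classical
  let core : Finset V → Finset V := fun S =>
    S.filter (fun x => ∀ K : Finset V, K ⊆ S → G.IsClique (K : Set V) → K.card = u → x ∈ K)
  have hcore : ∀ S ∈ fam G N u (k + 1), (S \ core S).card ≤ 2 * (k + 1 - u) := by
    intro S hS
    rw [mem_fam] at hS
    obtain ⟨⟨hSN, hSk⟩, K, hKS, hKc, hKu⟩ := hS
    have h1 := hajnal G S u (fun K hK => hmax K (hK.trans hSN))
      (S.powerset.filter (fun K : Finset V => G.IsClique (K : Set V) ∧ K.card = u))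
      ⟨K, by simp [hKS, hKc, hKu]⟩
      (fun K hK => by
        rw [mem_filter, mem_powerset] at hK
        exact hK)
    have h2 : S.filter (fun x => ∀ K : Finset V, K ∈ S.powerset.filter
        (fun K : Finset V => G.IsClique (K : Set V) ∧ K.card = u) → x ∈ K) = core S := by
      ext x
      simp only [core, mem_filter, mem_powerset, and_imp]
    rw [h2] at h1
    have h3 : (S.filter (fun x => ∃ K ∈ S.powerset.filter
        (fun K : Finset V => G.IsClique (K : Set V) ∧ K.card = u), x ∈ K)).card ≤ S.card :=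
      Finset.card_filter_le _ _
    have h4 : core S ⊆ S := Finset.filter_subset _ _
    have h5 := Finset.card_sdiff_add_card_eq_card h4
    have h6 : u ≤ k + 1 := by
      rw [← hKu, ← hSk]
      exact Finset.card_le_card hKS
    omega
  have hL : (fam G N u k).card * (N.card - k) =
      ((fam G N u k).sigma (fun T => N \ T)).card := by
    rw [Finset.card_sigma, Finset.sum_const_nat (m := N.card - k)]
    intro T hT
    rw [mem_fam] at hT
    rw [Finset.card_sdiff_of_subset hT.1.1, hT.1.2]
  have hR : ((fam G N u (k + 1)).sigma (fun S => S \ core S)).card ≤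
      (fam G N u (k + 1)).card * (2 * (k + 1 - u)) := by
    rw [Finset.card_sigma, ← smul_eq_mul]
    exact Finset.sum_le_card_nsmul _ _ _ hcore
  rw [hL]
  refine le_trans ?_ hR
  apply Finset.card_le_card_of_injOn (fun p => ⟨insert p.2 p.1, p.2⟩)
  · rintro ⟨T, x⟩ hTx
    simp only [coe_sigma, Set.mem_sigma_iff, mem_coe, mem_sdiff] at hTx ⊢
    obtain ⟨hT, hxN, hxT⟩ := hTx
    rw [mem_fam] at hT
    obtain ⟨⟨hTN, hTk⟩, K, hKT, hKc, hKu⟩ := hT
    refine ⟨?_, Finset.mem_insert_self _ _, ?_⟩
    · rw [mem_fam]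
      refine ⟨⟨?_, ?_⟩, K, hKT.trans (Finset.subset_insert _ _), hKc, hKu⟩
      · intro y hy
        rw [mem_insert] at hy
        rcases hy with rfl | hy
        · exact hxN
        · exact hTN hy
      · rw [Finset.card_insert_of_notMem hxT, hTk]
    · intro hx
      have h1 := (mem_filter.1 hx).2 K (hKT.trans (Finset.subset_insert _ _)) hKc hKu
      exact hxT (hKT h1)
  · rintro ⟨T, x⟩ hTx ⟨T', x'⟩ hTx' heq
    simp only [coe_sigma, Set.mem_sigma_iff, mem_coe, mem_sdiff] at hTx hTx'
    simp only [Sigma.mk.injEq, heq_eq_eq] at heq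
    obtain ⟨h1, rfl⟩ := heq
    have h2 : T = T' := by
      rw [← Finset.erase_insert hTx.2.2, h1, Finset.erase_insert hTx'.2.2]
    rw [h2]

theorem fam_card_le (G : SimpleGraph V) (N : Finset V) (u k : ℕ) :
    (fam G N u k).card ≤ N.card.choose k := by
  classical
  rw [← Finset.card_powersetCard]
  exact Finset.card_le_card (Finset.filter_subset _ _)

/-- Decay along the levels. -/
theorem decay (G : SimpleGraph V) (N : Finset V) (u : ℕ) (hu : 1 ≤ u)
    (hmax : ∀ K : Finset V, K ⊆ N → G.IsClique (K : Set V) → K.card ≤ u)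
    (M : ℕ) (hM : M ≤ N.card) (hM2 : M ≤ 2 * u) :
    ∀ j k : ℕ, k + j = M →
      ((fam G N u k).card : ℝ) ≤
        Real.exp (-((j : ℝ) * ((j : ℝ) - 1)) / (4 * u)) * (N.card.choose k : ℝ) := by
  intro j
  induction j with
  | zero =>
    intro k hk
    have h := fam_card_le G N u k
    simp only [Nat.cast_zero, zero_mul, neg_zero, zero_div, Real.exp_zero, one_mul]
    exact_mod_cast h
  | succ j ih =>
    intro k hk
    have hur : (0 : ℝ) < u := by exact_mod_cast hu
    by_cases hku : k < u
    · have h0 : (fam G N u k).card = 0 := by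
        rw [Finset.card_eq_zero, Finset.eq_empty_iff_forall_notMem]
        intro S hS
        rw [mem_fam] at hS
        obtain ⟨⟨-, hSk⟩, K, hKS, -, hKu⟩ := hS
        have := Finset.card_le_card hKS
        omega
      rw [h0]
      simp only [Nat.cast_zero]
      positivity
    push Not at hku
    have h1 := ih (k + 1) (by omega)
    have h2 := chain G N u k hmax (by omega)
    have h3 : (N.card.choose (k + 1)) * (k + 1) = N.card.choose k * (N.card - k) :=
      Nat.choose_succ_right_eq _ _
    have hkN : k < N.card := by omega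
    have hmk : (0 : ℝ) < ((N.card - k : ℕ) : ℝ) := by
      have : 0 < N.card - k := by omega
      exact_mod_cast this
    have h2' : ((fam G N u k).card : ℝ) * ((N.card - k : ℕ) : ℝ) ≤
        ((fam G N u (k + 1)).card : ℝ) * (2 * ((k : ℝ) + 1 - u)) := by
      have h4 : ((k + 1 - u : ℕ) : ℝ) = (k : ℝ) + 1 - u := by
        rw [Nat.cast_sub (by omega)]
        push_cast
        ring
      rw [← h4]
      exact_mod_cast h2
    have h3' : ((N.card.choose (k + 1) : ℕ) : ℝ) * ((k : ℝ) + 1) =
        ((N.card.choose k : ℕ) : ℝ) * ((N.card - k : ℕ) : ℝ) := by exact_mod_cast h3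
    set E : ℝ := Real.exp (-((j : ℝ) * ((j : ℝ) - 1)) / (4 * u)) with hE
    have hE0 : 0 < E := Real.exp_pos _
    have hk1 : (0 : ℝ) < (k : ℝ) + 1 := by positivity
    have hku' : (u : ℝ) ≤ (k : ℝ) + 1 := by
      have : (u : ℝ) ≤ k := by exact_mod_cast hku
      linarith
    have h5 : 2 * ((k : ℝ) + 1 - u) ≤ ((k : ℝ) + 1) * Real.exp (-(j : ℝ) / (2 * u)) := by
      have h6 : (k : ℝ) + 1 ≤ 2 * u := by
        have : k + 1 ≤ 2 * u := by omega
        exact_mod_cast this
      have h7 : (j : ℝ) ≤ 2 * u - (k + 1) := by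
        have : j + (k + 1) ≤ 2 * u := by omega
        have h' : (j : ℝ) + (k + 1) ≤ 2 * u := by exact_mod_cast this
        linarith
      have h8 := Real.add_one_le_exp (-(j : ℝ) / (2 * u))
      have h9 : ((k : ℝ) + 1) * (-(j : ℝ) / (2 * u) + 1) ≤
          ((k : ℝ) + 1) * Real.exp (-(j : ℝ) / (2 * u)) :=
        mul_le_mul_of_nonneg_left h8 hk1.le
      refine le_trans ?_ h9
      have h10 : ((k : ℝ) + 1) * (j : ℝ) / (2 * u) ≤ j := by
        rw [div_le_iff₀ (by positivity)]
        have : (0 : ℝ) ≤ j := by positivity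
        nlinarith
      have h11 : ((k : ℝ) + 1) * (-(j : ℝ) / (2 * u) + 1) =
          ((k : ℝ) + 1) - ((k : ℝ) + 1) * (j : ℝ) / (2 * u) := by ring
      rw [h11]
      linarith
    have h12 : ((fam G N u k).card : ℝ) * ((N.card - k : ℕ) : ℝ) ≤
        (E * Real.exp (-(j : ℝ) / (2 * u)) * (N.card.choose k : ℝ)) *
          ((N.card - k : ℕ) : ℝ) := by
      calc ((fam G N u k).card : ℝ) * ((N.card - k : ℕ) : ℝ)
          ≤ ((fam G N u (k + 1)).card : ℝ) * (2 * ((k : ℝ) + 1 - u)) := h2'
        _ ≤ (E * (N.card.choose (k + 1) : ℝ)) * (2 * ((k : ℝ) + 1 - u)) := by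
            apply mul_le_mul_of_nonneg_right h1
            linarith
        _ ≤ (E * (N.card.choose (k + 1) : ℝ)) *
              (((k : ℝ) + 1) * Real.exp (-(j : ℝ) / (2 * u))) := by
            apply mul_le_mul_of_nonneg_left h5
            positivity
        _ = E * Real.exp (-(j : ℝ) / (2 * u)) *
              (((N.card.choose (k + 1) : ℕ) : ℝ) * ((k : ℝ) + 1)) := by ring
        _ = _ := by rw [h3']; ring
    have h13 := le_of_mul_le_mul_right h12 hmk
    refine h13.trans (le_of_eq ?_)
    congr 1
    rw [hE, ← Real.exp_add]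
    congr 1
    push_cast
    field_simp
    ring

end Pool.Agent.W_2414c2_h93
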