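import Mathlib

/-!
# MP_2414c2_co : the numerical estimate
-/

set_option autoImplicit false

namespace Pool.Agent.W_2414c2_h93

theorem num_exp1 (W g L : ℝ) (hW : 108 ≤ W) (hg : 64 * (W * Real.log W) ≤ g ^ 2)
    (hg1 : 2 ≤ g) (hg2 : g ≤ 2 * W) (hL : g / 2 ≤ L) :
    -(L * (L - 1)) / (4 * (W - 1)) ≤ 1 / 4 + -(4 * Real.log W) := by
  have h1 : (g / 2) * (g / 2 - 1) ≤ L * (L - 1) :=
    mul_le_mul hL (by linarith) (by linarith) (by linarith)
  have h2 : 0 ≤ (g / 2) * (g / 2 - 1) := mul_nonneg (by linarith) (by linarith)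
  have h3 : (g / 2) * (g / 2 - 1) / (4 * W) ≤ L * (L - 1) / (4 * (W - 1)) := by
    rw [div_le_div_iff₀ (by linarith) (by linarith)]
    exact mul_le_mul h1 (by linarith) (by linarith) (h2.trans h1)
  have h5 : 4 * Real.log W - 1 / 4 ≤ (g / 2) * (g / 2 - 1) / (4 * W) := by
    rw [le_div_iff₀ (by linarith)]
    have i1 : (g / 2) * (g / 2 - 1) = g ^ 2 / 4 - g / 2 := by ring
    have i2 : (4 * Real.log W - 1 / 4) * (4 * W) = 16 * (W * Real.log W) - W := by ring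
    rw [i1, i2]
    linarith
  rw [neg_div]
  linarith

theorem num_exp2 (W g m : ℝ) (hlog : 0 ≤ Real.log W) (hW : 0 ≤ W)
    (hg : 64 * (W * Real.log W) ≤ g ^ 2) (hm : 0 < m) (hm4 : m ≤ 4 * W) :
    -(2 * (g / 2) ^ 2) / m ≤ -(4 * Real.log W) := by
  rw [neg_div]
  apply neg_le_neg
  rw [le_div_iff₀ hm]
  have h1 : 4 * Real.log W * m ≤ 4 * Real.log W * (4 * W) :=
    mul_le_mul_of_nonneg_left hm4 (by linarith)
  have i1 : 4 * Real.log W * (4 * W) = 16 * (W * Real.log W) := by ring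
  have i2 : 2 * (g / 2) ^ 2 = g ^ 2 / 2 := by ring
  have i3 : 0 ≤ W * Real.log W := mul_nonneg hW hlog
  rw [i2]
  linarith

theorem num_sum (W A B : ℝ) (hW : 108 ≤ W) (hA : A ≤ 1 / 4 + -(4 * Real.log W))
    (hB : B ≤ -(4 * Real.log W)) :
    Real.exp A + Real.exp B ≤ 1 / (64 * W ^ 2) := by
  have hW0 : 0 < W := by linarith
  have e3 : Real.exp (-(4 * Real.log W)) = 1 / W ^ 4 := by
    rw [Real.exp_neg, one_div]
    congr 1
    have h1 : (4 : ℝ) * Real.log W = Real.log (W ^ 4) := by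
      rw [Real.log_pow]
      norm_num
    rw [h1, Real.exp_log (by positivity)]
  have e4 : Real.exp (1 / 4 : ℝ) ≤ 2 := by
    have h1 := Real.exp_one_lt_d9
    have h2 : Real.exp (1 / 4 : ℝ) ^ 4 = Real.exp 1 := by
      rw [← Real.exp_nat_mul]
      norm_num
    by_contra hcon
    push Not at hcon
    have h3 : (2 : ℝ) ^ 4 ≤ Real.exp (1 / 4 : ℝ) ^ 4 :=
      pow_le_pow_left₀ (by norm_num) hcon.le 4
    rw [h2] at h3
    linarith
  have f1 : Real.exp A ≤ 2 * (1 / W ^ 4) := by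
    refine (Real.exp_le_exp.2 hA).trans ?_
    rw [Real.exp_add, e3]
    exact mul_le_mul_of_nonneg_right e4 (by positivity)
  have f2 : Real.exp B ≤ 1 / W ^ 4 := (Real.exp_le_exp.2 hB).trans (le_of_eq e3)
  have f3 : 3 * (1 / W ^ 4) ≤ 1 / (64 * W ^ 2) := by
    rw [mul_one_div, div_le_div_iff₀ (by positivity) (by positivity)]
    have i1 : (192 : ℝ) ≤ W ^ 2 := by
      have i0 : (108 : ℝ) ^ 2 ≤ W ^ 2 := pow_le_pow_left₀ (by norm_num) hW 2
      have : (192 : ℝ) ≤ 108 ^ 2 := by norm_num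
      linarith
    have i2 := mul_le_mul_of_nonneg_right i1 (sq_nonneg W)
    have i3 : W ^ 4 = W ^ 2 * W ^ 2 := by ring
    linarith
  linarith

theorem num_W (W y : ℝ) (hW2 : 2 ≤ W) (hlog : (0.693 : ℝ) < Real.log W) (hy0 : 0 ≤ y)
    (hyy : y ^ 2 = W * Real.log W) (hy : 25 * y ≤ 2 * W) : 108 ≤ W ∧ 8 ≤ y := by
  have hlogW : Real.log W ≤ 4 * W / 625 := by
    have h1 : 625 * y ^ 2 ≤ 4 * W ^ 2 := by
      have i1 : (25 * y) ^ 2 ≤ (2 * W) ^ 2 := pow_le_pow_left₀ (by linarith) hy 2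
      have i2 : (25 * y) ^ 2 = 625 * y ^ 2 := by ring
      have i3 : (2 * W) ^ 2 = 4 * W ^ 2 := by ring
      linarith
    rw [hyy] at h1
    have h2 : 625 * Real.log W * W ≤ 4 * W * W := by
      have i1 : 625 * Real.log W * W = 625 * (W * Real.log W) := by ring
      have i2 : 4 * W * W = 4 * W ^ 2 := by ring
      linarith
    have h3 := le_of_mul_le_mul_right h2 (by linarith)
    linarith
  have hW108 : (108 : ℝ) ≤ W := by linarith
  refine ⟨hW108, ?_⟩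
  have h1 : (8 : ℝ) ^ 2 ≤ y ^ 2 := by
    rw [hyy]
    have i1 : (108 : ℝ) * 0.693 ≤ W * Real.log W :=
      mul_le_mul hW108 hlog.le (by norm_num) (by linarith)
    have i2 : (8 : ℝ) ^ 2 ≤ 108 * 0.693 := by norm_num
    linarith
  exact le_of_sq_le_sq h1 hy0

theorem num_g (W y m M : ℝ) (hy2 : 8 ≤ y) (hm : W - 1 ≤ m) (h : m + 50 * y ≤ 4 * W)
    (hM : M = m ∨ M = 2 * (W - 1)) : 8 * y ≤ M - m / 2 := by
  rcases hM with rfl | rfl <;> linarith

/-- The choice of the two levels. -/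
theorem numeric (w m : ℕ) (hw : 2 ≤ w) (hm : w - 1 ≤ m)
    (h : (m : ℝ) + 50 * Real.sqrt (w * Real.log w) ≤ 4 * w) :
    ∃ (M k0 : ℕ) (t : ℝ), M ≤ m ∧ M ≤ 2 * (w - 1) ∧ k0 ≤ M ∧ 0 ≤ t ∧
      (m : ℝ) / 2 + t ≤ (k0 : ℝ) + 1 ∧
      Real.exp (-((((M - k0 : ℕ) : ℝ)) * (((M - k0 : ℕ) : ℝ) - 1)) / (4 * ((w - 1 : ℕ) : ℝ))) +
        Real.exp (-(2 * t ^ 2) / m) ≤ 1 / (64 * (w : ℝ) ^ 2) := by
  have hW2 : (2 : ℝ) ≤ (w : ℝ) := by exact_mod_cast hw
  have hlog : (0.693 : ℝ) < Real.log w := by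
    have h1 := Real.log_two_gt_d9
    have h2 : Real.log 2 ≤ Real.log w := Real.log_le_log (by norm_num) hW2
    linarith
  have hy0 : 0 ≤ Real.sqrt (w * Real.log w) := Real.sqrt_nonneg _
  have hyy : Real.sqrt (w * Real.log w) ^ 2 = w * Real.log w :=
    Real.sq_sqrt (mul_nonneg (by linarith) (by linarith))
  generalize Real.sqrt (w * Real.log w) = y at h hy0 hyy
  have hmr : (w : ℝ) - 1 ≤ (m : ℝ) := by
    have h1 : w ≤ m + 1 := by omega
    have h2 : (w : ℝ) ≤ (m : ℝ) + 1 := by exact_mod_cast h1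
    linarith
  obtain ⟨hW108, hy8⟩ := num_W w y hW2 hlog hy0 hyy (by linarith)
  have hw1 : ((w - 1 : ℕ) : ℝ) = (w : ℝ) - 1 := by
    rw [Nat.cast_sub (by omega)]
    simp
  obtain ⟨M, hM⟩ : ∃ M, M = min m (2 * (w - 1)) := ⟨_, rfl⟩
  have hMm : M ≤ m := hM ▸ min_le_left _ _
  have hMu : M ≤ 2 * (w - 1) := hM ▸ min_le_right _ _
  have hg8 : 8 * y ≤ (M : ℝ) - (m : ℝ) / 2 := by
    refine num_g w y m M hy8 hmr h ?_
    rcases min_choice m (2 * (w - 1)) with h1 | h1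
    · left
      rw [hM, h1]
    · right
      rw [hM, h1]
      push_cast
      rw [hw1]
  have hMr : (M : ℝ) ≤ m := by exact_mod_cast hMm
  obtain ⟨g, hg⟩ : ∃ g : ℝ, g = (M : ℝ) - (m : ℝ) / 2 := ⟨_, rfl⟩
  rw [← hg] at hg8
  have hg2 : g ≤ 2 * w := by linarith
  have hk0le : ((⌊(m : ℝ) / 2 + g / 2⌋₊ : ℕ) : ℝ) ≤ (m : ℝ) / 2 + g / 2 :=
    Nat.floor_le (by linarith)
  have hk0lt : (m : ℝ) / 2 + g / 2 < ((⌊(m : ℝ) / 2 + g / 2⌋₊ : ℕ) : ℝ) + 1 :=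
    Nat.lt_floor_add_one _
  generalize ⌊(m : ℝ) / 2 + g / 2⌋₊ = k0 at hk0le hk0lt
  have hk0M : k0 ≤ M := by
    have : (k0 : ℝ) ≤ M := by linarith
    exact_mod_cast this
  refine ⟨M, k0, g / 2, hMm, hMu, hk0M, by linarith, hk0lt.le, ?_⟩
  have hL : ((M - k0 : ℕ) : ℝ) = (M : ℝ) - k0 := Nat.cast_sub hk0M
  have hgg : 64 * ((w : ℝ) * Real.log w) ≤ g ^ 2 := by
    rw [← hyy]
    have i1 : (8 * y) ^ 2 ≤ g ^ 2 := pow_le_pow_left₀ (by linarith) hg8 2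
    have i2 : (8 * y) ^ 2 = 64 * y ^ 2 := by ring
    linarith
  apply num_sum w _ _ hW108
  · rw [hw1]
    exact num_exp1 w g _ hW108 hgg (by linarith) hg2 (by rw [hL]; linarith)
  · exact num_exp2 w g m (by linarith) (by linarith) hgg (by linarith) (by linarith)

end Pool.Agent.W_2414c2_h93
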