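import Pool.Agent.W_2414c2_h93.Prob
import Pool.Agent.W_2414c2_h93.Num

/-!
# MP_2414c2_co : graphs in which every vertex shares its maximum cliques with few vertices
-/

set_option autoImplicit false

namespace Pool.Agent.W_2414c2_h93

open Finset

variable {V : Type*} [Fintype V] [DecidableEq V]

theorem prob_bound (G : SimpleGraph V) (w : ℕ) (hw : 2 ≤ w)
    (hmax : ∀ K : Finset V, G.IsClique (K : Set V) → K.card ≤ w) (v : V)
    (h : ((nb G w v).card : ℝ) + 50 * Real.sqrt (w * Real.log w) ≤ 4 * w) :
    ((allfam G (nb G w v) (w - 1)).card : ℝ) ≤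
      1 / (64 * (w : ℝ) ^ 2) * 2 ^ (nb G w v).card := by
  by_cases he : (allfam G (nb G w v) (w - 1)) = ∅
  · rw [he]
    simp only [Finset.card_empty, Nat.cast_zero]
    positivity
  · obtain ⟨S, hS⟩ := Finset.nonempty_iff_ne_empty.2 he
    rw [mem_allfam] at hS
    obtain ⟨hSN, K, hKS, -, hKu⟩ := hS
    have hm : w - 1 ≤ (nb G w v).card := by
      rw [← hKu]
      exact Finset.card_le_card (hKS.trans hSN)
    obtain ⟨M, k0, t, hM, hM2, hk0, ht, hkt, hnum⟩ := numeric w _ hw hm h
    have h1 := allfam_bound G (nb G w v) (w - 1) (by omega)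
      (fun K hK hKc => nb_max hmax v K hK hKc) M k0 hM hM2 hk0 (by omega) t ht hkt
    exact h1.trans (mul_le_mul_of_nonneg_right hnum (by positivity))

theorem mem_nb_symm {G : SimpleGraph V} {w : ℕ} {v x : V} (h : x ∈ nb G w v) :
    v ∈ nb G w x := by
  rw [mem_nb] at h ⊢
  obtain ⟨hne, K, hK, hKw, hv, hx⟩ := h
  exact ⟨hne.symm, K, hK, hKw, hx, hv⟩

/-- The theorem, with `w` the clique number. -/
theorem main (G : SimpleGraph V) (w : ℕ) (hw : 2 ≤ w)
    (hmax : ∀ K : Finset V, G.IsClique (K : Set V) → K.card ≤ w)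
    (h : ∀ v : V, ((nb G w v).card : ℝ) + 50 * Real.sqrt (w * Real.log w) ≤ 4 * w) :
    ∃ c : V → Bool, ∀ s : Finset V, G.IsClique (s : Set V) → s.card = w →
      ∃ x ∈ s, ∃ y ∈ s, c x ≠ c y := by
  classical
  have hwr : (2 : ℝ) ≤ w := by exact_mod_cast hw
  have hsq : (1 : ℝ) ≤ 50 * Real.sqrt (w * Real.log w) := by
    have h1 : (0.693 : ℝ) < Real.log 2 := by
      have := Real.log_two_gt_d9
      linarith
    have h2 : Real.log 2 ≤ Real.log w := Real.log_le_log (by norm_num) hwr
    have h3 : (1 : ℝ) ≤ Real.sqrt (w * Real.log w) := by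
      rw [Real.one_le_sqrt]
      nlinarith
    linarith
  have hcard : ∀ v : V, (insert v (nb G w v)).card ≤ 4 * w := by
    intro v
    rw [Finset.card_insert_of_notMem (self_notMem_nb G w v)]
    have h1 := h v
    have h2 : ((nb G w v).card : ℝ) + 1 ≤ 4 * w := by linarith
    exact_mod_cast h2
  obtain ⟨f, hf⟩ := local_lemma (univ : Finset V) (fun v => insert v (nb G w v)) (Bad G w)
    (by
      intro v _ f f' hff' hbad
      obtain ⟨K, hK, hKw, hvK, hKf⟩ := hbad
      refine ⟨K, hK, hKw, hvK, ?_⟩
      intro x hx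
      have hx' : x ∈ insert v (nb G w v) := by
        rw [mem_insert]
        by_cases hxv : x = v
        · exact Or.inl hxv
        · exact Or.inr (mem_nb.2 ⟨hxv, K, hK, hKw, hvK, hx⟩)
      rw [← hff' x hx', ← hff' v (mem_insert_self _ _)]
      exact hKf x hx)
    (1 / (64 * (w : ℝ) ^ 2)) (by positivity)
    (by
      rw [mul_one_div, div_lt_one (by positivity)]
      nlinarith)
    (16 * w ^ 2)
    (by
      have h0 : (w : ℝ) ≠ 0 := by linarith
      push_cast
      field_simp
      norm_num)
    (by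
      intro v _
      have h1 := ev_card G w v
      have h2 := prob_bound G w hw hmax v (h v)
      have h3 : ((ev (Bad G w) v).card : ℝ) * 2 ^ (nb G w v).card ≤
          ((allfam G (nb G w v) (w - 1)).card : ℝ) *
            ((univ : Finset (V → Bool)).card : ℝ) := by exact_mod_cast h1
      have h4 := mul_le_mul_of_nonneg_right h2
        (Nat.cast_nonneg' (α := ℝ) (univ : Finset (V → Bool)).card)
      have h5 : ((ev (Bad G w) v).card : ℝ) * 2 ^ (nb G w v).card ≤
          (1 / (64 * (w : ℝ) ^ 2) * ((univ : Finset (V → Bool)).card : ℝ)) *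
            2 ^ (nb G w v).card := by
        calc _ ≤ _ := h3
          _ ≤ _ := h4
          _ = _ := by ring
      exact le_of_mul_le_mul_right h5 (by positivity))
    (by
      intro v _
      have h1 : (univ : Finset V).filter
          (fun x => ¬ Disjoint (insert v (nb G w v)) (insert x (nb G w x))) ⊆
          (insert v (nb G w v)).biUnion (fun z => insert z (nb G w z)) := by
        intro x hx
        rw [mem_filter] at hx
        obtain ⟨z, hz, hz2⟩ := Finset.not_disjoint_iff.1 hx.2
        rw [mem_biUnion]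
        refine ⟨z, hz, ?_⟩
        rw [mem_insert] at hz2 ⊢
        rcases hz2 with rfl | hz2
        · exact Or.inl rfl
        · exact Or.inr (mem_nb_symm hz2)
      have h2 := (Finset.card_le_card h1).trans
        (Finset.card_biUnion_le_card_mul _ _ (4 * w) (fun z _ => hcard z))
      have h3 := Nat.mul_le_mul_right (4 * w) (hcard v)
      calc _ ≤ _ := h2
        _ ≤ _ := h3
        _ = 16 * w ^ 2 := by ring)
  refine ⟨f, ?_⟩
  intro s hs hsw
  have hne : s.Nonempty := by
    rw [← Finset.card_pos]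
    omega
  obtain ⟨v, hv⟩ := hne
  have h1 := hf v (mem_univ v)
  by_contra hcon
  push Not at hcon
  exact h1 ⟨s, hs, hsw, hv, fun x hx => hcon x hx v hv⟩

end Pool.Agent.W_2414c2_h93
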