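import Mathlib

/-!
# MP_2414c2_co : binomial tail and a counting form of the symmetric local lemma
-/

set_option autoImplicit false

namespace Pool.Agent.W_2414c2_h93

open Finset

/-- Chernoff bound for the sum of the large binomial coefficients. -/
theorem tail (m : ℕ) (hm : 1 ≤ m) (t : ℝ) (ht : 0 ≤ t) (k0 : ℕ)
    (hk0 : (m : ℝ) / 2 + t ≤ (k0 : ℝ) + 1) :
    ∑ k ∈ (range (m + 1)).filter (fun k => ¬ k ≤ k0), (m.choose k : ℝ) ≤
      Real.exp (-(2 * t ^ 2) / m) * 2 ^ m := by
  have hmr : (0 : ℝ) < m := by exact_mod_cast hm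
  set l : ℝ := 4 * t / m with hl
  have hl0 : 0 ≤ l := by positivity
  have h1 : ∑ k ∈ (range (m + 1)).filter (fun k => ¬ k ≤ k0), (m.choose k : ℝ) ≤
      ∑ k ∈ range (m + 1), (m.choose k : ℝ) * Real.exp (l * (k - (m / 2 + t))) := by
    calc ∑ k ∈ (range (m + 1)).filter (fun k => ¬ k ≤ k0), (m.choose k : ℝ)
        ≤ ∑ k ∈ (range (m + 1)).filter (fun k => ¬ k ≤ k0),
            (m.choose k : ℝ) * Real.exp (l * (k - (m / 2 + t))) := by
          apply Finset.sum_le_sum
          intro k hk
          rw [mem_filter] at hk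
          have hk2 : k0 + 1 ≤ k := by omega
          have hk3 : (k0 : ℝ) + 1 ≤ k := by exact_mod_cast hk2
          have h2 : (1 : ℝ) ≤ Real.exp (l * (k - (m / 2 + t))) := by
            apply Real.one_le_exp
            apply mul_nonneg hl0
            linarith
          have h3 : (0 : ℝ) ≤ (m.choose k : ℝ) := by positivity
          nlinarith
      _ ≤ _ := by
          apply Finset.sum_le_sum_of_subset_of_nonneg (Finset.filter_subset _ _)
          intro k _ _
          positivity
  refine h1.trans ?_
  have h2 : ∑ k ∈ range (m + 1), (m.choose k : ℝ) * Real.exp (l * (k - (m / 2 + t))) =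
      Real.exp (-(l * (m / 2 + t))) * (Real.exp l + 1) ^ m := by
    rw [add_pow, Finset.mul_sum]
    apply Finset.sum_congr rfl
    intro k _
    rw [one_pow, mul_one, ← Real.exp_nat_mul]
    have : l * ((k : ℝ) - (m / 2 + t)) = -(l * (m / 2 + t)) + k * l := by ring
    rw [this, Real.exp_add]
    ring
  rw [h2]
  have h3 : Real.exp l + 1 ≤ 2 * Real.exp (l / 2 + l ^ 2 / 8) := by
    have h4 : Real.exp l + 1 = 2 * Real.exp (l / 2) * Real.cosh (l / 2) := by
      rw [Real.cosh_eq]
      have h5 : Real.exp (l / 2) * Real.exp (l / 2) = Real.exp l := by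
        rw [← Real.exp_add]; congr 1; ring
      have h6 : Real.exp (l / 2) * Real.exp (-(l / 2)) = 1 := by
        rw [← Real.exp_add]; simp
      linear_combination -h5 - h6
    rw [h4, Real.exp_add, mul_assoc]
    apply mul_le_mul_of_nonneg_left _ (by norm_num)
    apply mul_le_mul_of_nonneg_left _ (Real.exp_pos _).le
    have h7 := Real.cosh_le_exp_half_sq (l / 2)
    refine h7.trans (le_of_eq ?_)
    congr 1
    ring
  have h8 : (Real.exp l + 1) ^ m ≤ 2 ^ m * Real.exp (m * (l / 2 + l ^ 2 / 8)) := by
    rw [Real.exp_nat_mul, ← mul_pow]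
    exact pow_le_pow_left₀ (by positivity) h3 m
  calc Real.exp (-(l * (m / 2 + t))) * (Real.exp l + 1) ^ m
      ≤ Real.exp (-(l * (m / 2 + t))) * (2 ^ m * Real.exp (m * (l / 2 + l ^ 2 / 8))) :=
        mul_le_mul_of_nonneg_left h8 (Real.exp_pos _).le
    _ = (Real.exp (-(l * (m / 2 + t))) * Real.exp (m * (l / 2 + l ^ 2 / 8))) * 2 ^ m := by ring
    _ = Real.exp (-(2 * t ^ 2) / m) * 2 ^ m := by
        rw [← Real.exp_add]
        congr 2
        rw [hl]
        field_simp
        ring

section Local

variable {V ι : Type*} [Fintype V] [DecidableEq V]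

open Classical in
/-- The colourings which avoid the events in `S`. -/
noncomputable def good (Bad : ι → (V → Bool) → Prop) (S : Finset ι) : Finset (V → Bool) :=
  univ.filter (fun f => ∀ i ∈ S, ¬ Bad i f)

open Classical in
/-- The colourings with the event `i`. -/
noncomputable def ev (Bad : ι → (V → Bool) → Prop) (i : ι) : Finset (V → Bool) :=
  univ.filter (fun f => Bad i f)

theorem mem_good {Bad : ι → (V → Bool) → Prop} {S : Finset ι} {f : V → Bool} :
    f ∈ good Bad S ↔ ∀ i ∈ S, ¬ Bad i f := by
  classical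
  simp [good]

theorem mem_ev {Bad : ι → (V → Bool) → Prop} {i : ι} {f : V → Bool} :
    f ∈ ev Bad i ↔ Bad i f := by
  classical
  simp [ev]

/-- Independence. -/
theorem indep (X : Finset V) (P Q : Finset (V → Bool))
    (hP : ∀ f f' : V → Bool, (∀ v ∈ X, f v = f' v) → f ∈ P → f' ∈ P)
    (hQ : ∀ f f' : V → Bool, (∀ v, v ∉ X → f v = f' v) → f ∈ Q → f' ∈ Q) :
    (Q ∩ P).card * (univ : Finset (V → Bool)).card ≤ P.card * Q.card := by
  classical
  rw [← Finset.card_product, ← Finset.card_product]
  apply Finset.card_le_card_of_injOn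
    (fun p : (V → Bool) × (V → Bool) =>
      ((fun v => if v ∈ X then p.1 v else p.2 v : V → Bool),
       (fun v => if v ∈ X then p.2 v else p.1 v : V → Bool)))
  · rintro ⟨f, g⟩ hfg
    simp only [coe_product, coe_inter, coe_univ, Set.mem_prod, Set.mem_inter_iff, mem_coe,
      Set.mem_univ, and_true] at hfg ⊢
    refine ⟨hP f _ ?_ hfg.2, hQ f _ ?_ hfg.1⟩
    · intro v hv
      simp [hv]
    · intro v hv
      simp [hv]
  · rintro ⟨f, g⟩ _ ⟨f', g'⟩ _ heq
    simp only [Prod.mk.injEq] at heq
    obtain ⟨h1, h2⟩ := heq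
    have hf : f = f' := by
      funext v
      have a1 := congrFun h1 v
      have a2 := congrFun h2 v
      by_cases hv : v ∈ X
      · simpa [hv] using a1
      · simpa [hv] using a2
    have hg : g = g' := by
      funext v
      have a1 := congrFun h1 v
      have a2 := congrFun h2 v
      by_cases hv : v ∈ X
      · simpa [hv] using a2
      · simpa [hv] using a1
    rw [hf, hg]

open Classical in
/-- **Symmetric local lemma**, counting form. -/
theorem local_step (E : Finset ι) (e : ι → Finset V) (Bad : ι → (V → Bool) → Prop)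
    (hsupp : ∀ i ∈ E, ∀ f f' : V → Bool, (∀ v ∈ e i, f v = f' v) → Bad i f → Bad i f')
    (p : ℝ) (hp0 : 0 ≤ p) (d : ℕ) (hpd : 4 * p * d ≤ 1)
    (hp : ∀ i ∈ E, ((ev Bad i).card : ℝ) ≤ p * ((univ : Finset (V → Bool)).card : ℝ))
    (hd : ∀ i ∈ E, (E.filter (fun j => ¬ Disjoint (e i) (e j))).card ≤ d) :
    ∀ (n : ℕ) (S : Finset ι), S ⊆ E → S.card = n → ∀ i ∈ E, i ∉ S →
      ((good Bad S ∩ ev Bad i).card : ℝ) ≤ 2 * p * ((good Bad S).card : ℝ) := by
  intro n
  induction n using Nat.strong_induction_on with
  | _ n ih =>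
  intro S hSE hSn i hi hiS
  set S1 : Finset ι := S.filter (fun j => ¬ Disjoint (e i) (e j)) with hS1
  set S2 : Finset ι := S.filter (fun j => Disjoint (e i) (e j)) with hS2
  have hU : (0 : ℝ) < ((univ : Finset (V → Bool)).card : ℝ) := by
    have : 0 < (univ : Finset (V → Bool)).card := Finset.card_pos.2 ⟨fun _ => true, mem_univ _⟩
    exact_mod_cast this
  have hS2S : S2 ⊆ S := Finset.filter_subset _ _
  have hmono : good Bad S ⊆ good Bad S2 := by
    intro f hf
    rw [mem_good] at hf ⊢
    exact fun j hj => hf j (hS2S hj)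
  -- independence
  have h1 : ((good Bad S2 ∩ ev Bad i).card : ℝ) ≤ p * ((good Bad S2).card : ℝ) := by
    have h2 := indep (e i) (ev Bad i) (good Bad S2)
      (fun f f' hff' hf => by
        rw [mem_ev] at hf ⊢
        exact hsupp i hi f f' hff' hf)
      (fun f f' hff' hf => by
        rw [mem_good] at hf ⊢
        intro j hj hbad
        have hj2 := mem_filter.1 hj
        refine hf j hj (hsupp j (hSE hj2.1) f' f ?_ hbad)
        intro v hv
        refine (hff' v ?_).symm
        exact fun hv' => (Finset.disjoint_left.1 hj2.2) hv' hv)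
    have h3 : ((good Bad S2 ∩ ev Bad i).card : ℝ) * ((univ : Finset (V → Bool)).card : ℝ) ≤
        ((ev Bad i).card : ℝ) * ((good Bad S2).card : ℝ) := by exact_mod_cast h2
    have h4 := mul_le_mul_of_nonneg_right (hp i hi) (Nat.cast_nonneg' (α := ℝ) (good Bad S2).card)
    have h5 : ((good Bad S2 ∩ ev Bad i).card : ℝ) * ((univ : Finset (V → Bool)).card : ℝ) ≤
        (p * ((good Bad S2).card : ℝ)) * ((univ : Finset (V → Bool)).card : ℝ) := by
      calc _ ≤ _ := h3
        _ ≤ _ := h4
        _ = _ := by ring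
    exact le_of_mul_le_mul_right h5 hU
  have h6 : ((good Bad S ∩ ev Bad i).card : ℝ) ≤ ((good Bad S2 ∩ ev Bad i).card : ℝ) := by
    norm_cast
    exact Finset.card_le_card (Finset.inter_subset_inter_right hmono)
  -- the near events
  have h7 : ((good Bad S2).card : ℝ) ≤ 2 * ((good Bad S).card : ℝ) := by
    by_cases hS1e : S1 = ∅
    · have : S2 = S := by
        apply Finset.Subset.antisymm hS2S
        intro j hj
        rw [hS2, mem_filter]
        refine ⟨hj, ?_⟩
        by_contra hcon
        have : j ∈ S1 := by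
          rw [hS1, mem_filter]
          exact ⟨hj, hcon⟩
        rw [hS1e] at this
        exact absurd this (Finset.notMem_empty j)
      rw [this]
      have : (0 : ℝ) ≤ ((good Bad S).card : ℝ) := by positivity
      linarith
    · have hlt : S2.card < n := by
        rw [← hSn]
        apply Finset.card_lt_card
        rw [Finset.ssubset_iff_of_subset hS2S]
        obtain ⟨j, hj⟩ := Finset.nonempty_iff_ne_empty.2 hS1e
        refine ⟨j, (mem_filter.1 hj).1, ?_⟩
        intro hj2
        exact (mem_filter.1 hj).2 (mem_filter.1 hj2).2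
      have hsub : good Bad S2 ⊆ good Bad S ∪ S1.biUnion (fun j => good Bad S2 ∩ ev Bad j) := by
        intro f hf
        by_cases hf2 : f ∈ good Bad S
        · exact mem_union_left _ hf2
        · apply mem_union_right
          rw [mem_good] at hf2
          push Not at hf2
          obtain ⟨j, hj, hbad⟩ := hf2
          rw [mem_biUnion]
          refine ⟨j, ?_, mem_inter.2 ⟨hf, mem_ev.2 hbad⟩⟩
          rw [hS1, mem_filter]
          refine ⟨hj, fun hdis => ?_⟩
          exact (mem_good.1 hf) j (mem_filter.2 ⟨hj, hdis⟩) hbad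
      have hc := (Finset.card_le_card hsub).trans (Finset.card_union_le _ _)
      have hc2 := Finset.card_biUnion_le (s := S1) (t := fun j => good Bad S2 ∩ ev Bad j)
      have hc3 : ((good Bad S2).card : ℝ) ≤ ((good Bad S).card : ℝ) +
          ∑ j ∈ S1, ((good Bad S2 ∩ ev Bad j).card : ℝ) := by
        exact_mod_cast hc.trans (Nat.add_le_add_left hc2 _)
      have hc4 : ∑ j ∈ S1, ((good Bad S2 ∩ ev Bad j).card : ℝ) ≤
          ∑ _j ∈ S1, 2 * p * ((good Bad S2).card : ℝ) := by
        apply Finset.sum_le_sum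
        intro j hj
        have hj' := mem_filter.1 hj
        apply ih _ hlt S2 (hS2S.trans hSE) rfl j (hSE hj'.1)
        intro hj2
        exact hj'.2 (mem_filter.1 hj2).2
      rw [Finset.sum_const, nsmul_eq_mul] at hc4
      have hS1d : (S1.card : ℝ) ≤ d := by
        have h8 : S1.card ≤ d := by
          refine le_trans (Finset.card_le_card ?_) (hd i hi)
          intro j hj
          have hj' := mem_filter.1 hj
          exact mem_filter.2 ⟨hSE hj'.1, hj'.2⟩
        exact_mod_cast h8
      have hg0 : (0 : ℝ) ≤ ((good Bad S2).card : ℝ) := by positivity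
      have h9 : (S1.card : ℝ) * (2 * p * ((good Bad S2).card : ℝ)) ≤
          1 / 2 * ((good Bad S2).card : ℝ) := by
        have h10 : (S1.card : ℝ) * (2 * p) ≤ 1 / 2 := by
          have : (S1.card : ℝ) * (2 * p) ≤ d * (2 * p) :=
            mul_le_mul_of_nonneg_right hS1d (by positivity)
          linarith
        calc (S1.card : ℝ) * (2 * p * ((good Bad S2).card : ℝ))
            = ((S1.card : ℝ) * (2 * p)) * ((good Bad S2).card : ℝ) := by ring
          _ ≤ _ := mul_le_mul_of_nonneg_right h10 hg0
      linarith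
  have h11 : p * ((good Bad S2).card : ℝ) ≤ p * (2 * ((good Bad S).card : ℝ)) :=
    mul_le_mul_of_nonneg_left h7 hp0
  linarith

/-- **Symmetric local lemma** for two-colourings. -/
theorem local_lemma (E : Finset ι) (e : ι → Finset V) (Bad : ι → (V → Bool) → Prop)
    (hsupp : ∀ i ∈ E, ∀ f f' : V → Bool, (∀ v ∈ e i, f v = f' v) → Bad i f → Bad i f')
    (p : ℝ) (hp0 : 0 ≤ p) (hp1 : 2 * p < 1) (d : ℕ) (hpd : 4 * p * d ≤ 1)
    (hp : ∀ i ∈ E, ((ev Bad i).card : ℝ) ≤ p * ((univ : Finset (V → Bool)).card : ℝ))
    (hd : ∀ i ∈ E, (E.filter (fun j => ¬ Disjoint (e i) (e j))).card ≤ d) :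
    ∃ f : V → Bool, ∀ i ∈ E, ¬ Bad i f := by
  classical
  have key : ∀ S : Finset ι, S ⊆ E → 0 < (good Bad S).card := by
    intro S
    induction S using Finset.induction_on with
    | empty =>
      intro _
      rw [Finset.card_pos]
      exact ⟨fun _ => true, by rw [mem_good]; simp⟩
    | insert i S hiS ihS =>
      intro hS
      have h0 := ihS (fun j hj => hS (mem_insert_of_mem hj))
      have h1 := local_step E e Bad hsupp p hp0 d hpd hp (by convert hd) S.card S
        (fun j hj => hS (mem_insert_of_mem hj)) rfl i (hS (mem_insert_self i S)) hiS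
      have h2 : good Bad S ⊆ good Bad (insert i S) ∪ (good Bad S ∩ ev Bad i) := by
        intro f hf
        by_cases hb : Bad i f
        · exact mem_union_right _ (mem_inter.2 ⟨hf, mem_ev.2 hb⟩)
        · apply mem_union_left
          rw [mem_good] at hf ⊢
          intro j hj
          rw [mem_insert] at hj
          rcases hj with rfl | hj
          · exact hb
          · exact hf j hj
      have h3 := (Finset.card_le_card h2).trans (Finset.card_union_le _ _)
      have h4 : ((good Bad S).card : ℝ) ≤ ((good Bad (insert i S)).card : ℝ) +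
          ((good Bad S ∩ ev Bad i).card : ℝ) := by exact_mod_cast h3
      have h5 : (0 : ℝ) < ((good Bad S).card : ℝ) := by exact_mod_cast h0
      have h6 : (0 : ℝ) < ((good Bad (insert i S)).card : ℝ) := by nlinarith
      exact_mod_cast h6
  obtain ⟨f, hf⟩ := Finset.card_pos.1 (key E (Finset.Subset.refl _))
  rw [mem_good] at hf
  exact ⟨f, hf⟩

end Local

end Pool.Agent.W_2414c2_h93
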