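import Pool.Agent.W_2414c2_h93.Chain
import Pool.Agent.W_2414c2_h93.Tail

/-!
# MP_2414c2_co : the probability of a monochromatic maximum clique through a vertex
-/

set_option autoImplicit false

namespace Pool.Agent.W_2414c2_h93

open Finset

section

variable {V : Type*} [DecidableEq V]

open Classical in
/-- All subsets of `N` which contain a clique of size `u`. -/
noncomputable def allfam (G : SimpleGraph V) (N : Finset V) (u : ℕ) : Finset (Finset V) :=
  N.powerset.filter (fun S => ∃ K : Finset V, K ⊆ S ∧ G.IsClique (K : Set V) ∧ K.card = u)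

theorem mem_allfam {G : SimpleGraph V} {N : Finset V} {u : ℕ} {S : Finset V} :
    S ∈ allfam G N u ↔ S ⊆ N ∧
      ∃ K : Finset V, K ⊆ S ∧ G.IsClique (K : Set V) ∧ K.card = u := by
  classical
  simp [allfam]

theorem allfam_card (G : SimpleGraph V) (N : Finset V) (u : ℕ) :
    (allfam G N u).card = ∑ k ∈ range (N.card + 1), (fam G N u k).card := by
  classical
  rw [Finset.card_eq_sum_card_fiberwise (f := Finset.card) (t := range (N.card + 1))]
  · apply Finset.sum_congr rfl
    intro k _
    congr 1
    ext S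
    rw [mem_filter, mem_allfam, mem_fam]
    tauto
  · intro S hS
    rw [mem_coe, mem_allfam] at hS
    rw [mem_coe, mem_range]
    have := Finset.card_le_card hS.1
    omega

theorem allfam_bound (G : SimpleGraph V) (N : Finset V) (u : ℕ) (hu : 1 ≤ u)
    (hmax : ∀ K : Finset V, K ⊆ N → G.IsClique (K : Set V) → K.card ≤ u)
    (M k0 : ℕ) (hM : M ≤ N.card) (hM2 : M ≤ 2 * u) (hk0 : k0 ≤ M) (hN : 1 ≤ N.card)
    (t : ℝ) (ht : 0 ≤ t) (hkt : (N.card : ℝ) / 2 + t ≤ (k0 : ℝ) + 1) :
    ((allfam G N u).card : ℝ) ≤
      (Real.exp (-((((M - k0 : ℕ) : ℝ)) * (((M - k0 : ℕ) : ℝ) - 1)) / (4 * u)) +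
        Real.exp (-(2 * t ^ 2) / N.card)) * 2 ^ N.card := by
  classical
  set L : ℕ := M - k0 with hL
  have hur : (0 : ℝ) < u := by exact_mod_cast hu
  have h1 : ((allfam G N u).card : ℝ) = ∑ k ∈ range (N.card + 1), ((fam G N u k).card : ℝ) := by
    rw [allfam_card]
    push_cast
    rfl
  have h2 : ∑ k ∈ (range (N.card + 1)).filter (fun k => k ≤ k0), ((fam G N u k).card : ℝ) ≤
      Real.exp (-((L : ℝ) * ((L : ℝ) - 1)) / (4 * u)) * 2 ^ N.card := by
    calc ∑ k ∈ (range (N.card + 1)).filter (fun k => k ≤ k0), ((fam G N u k).card : ℝ)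
        ≤ ∑ k ∈ (range (N.card + 1)).filter (fun k => k ≤ k0),
            Real.exp (-((L : ℝ) * ((L : ℝ) - 1)) / (4 * u)) * (N.card.choose k : ℝ) := by
          apply Finset.sum_le_sum
          intro k hk
          rw [mem_filter] at hk
          refine (decay G N u hu hmax M hM hM2 (M - k) k (by omega)).trans ?_
          apply mul_le_mul_of_nonneg_right _ (by positivity)
          apply Real.exp_le_exp.2
          apply div_le_div_of_nonneg_right _ (by positivity)
          apply neg_le_neg
          have h3 : L ≤ M - k := by omega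
          have h4 : (L : ℝ) ≤ ((M - k : ℕ) : ℝ) := by exact_mod_cast h3
          rcases Nat.eq_or_lt_of_le h3 with h5 | h5
          · rw [← h5]
          · have h6 : (1 : ℝ) ≤ ((M - k : ℕ) : ℝ) := by
              have : 1 ≤ M - k := by omega
              exact_mod_cast this
            have h7 : (0 : ℝ) ≤ (L : ℝ) := by positivity
            nlinarith
      _ ≤ ∑ k ∈ range (N.card + 1),
            Real.exp (-((L : ℝ) * ((L : ℝ) - 1)) / (4 * u)) * (N.card.choose k : ℝ) := by
          apply Finset.sum_le_sum_of_subset_of_nonneg (Finset.filter_subset _ _)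
          intro k _ _
          positivity
      _ = Real.exp (-((L : ℝ) * ((L : ℝ) - 1)) / (4 * u)) * 2 ^ N.card := by
          rw [← Finset.mul_sum]
          congr 1
          have := Nat.sum_range_choose N.card
          exact_mod_cast this
  have h3 : ∑ k ∈ (range (N.card + 1)).filter (fun k => ¬ k ≤ k0), ((fam G N u k).card : ℝ) ≤
      Real.exp (-(2 * t ^ 2) / N.card) * 2 ^ N.card := by
    refine le_trans ?_ (tail N.card hN t ht k0 hkt)
    apply Finset.sum_le_sum
    intro k _
    exact_mod_cast fam_card_le G N u k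
  rw [h1, ← Finset.sum_filter_add_sum_filter_not (range (N.card + 1)) (fun k => k ≤ k0), add_mul]
  exact add_le_add h2 h3

end

variable {V : Type*} [Fintype V] [DecidableEq V]

open Classical in
/-- The vertices which share a clique of size `w` with `v`. -/
noncomputable def nb (G : SimpleGraph V) (w : ℕ) (v : V) : Finset V :=
  univ.filter (fun x => x ≠ v ∧
    ∃ K : Finset V, G.IsClique (K : Set V) ∧ K.card = w ∧ v ∈ K ∧ x ∈ K)

theorem mem_nb {G : SimpleGraph V} {w : ℕ} {v x : V} :
    x ∈ nb G w v ↔ x ≠ v ∧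
      ∃ K : Finset V, G.IsClique (K : Set V) ∧ K.card = w ∧ v ∈ K ∧ x ∈ K := by
  classical
  simp [nb]

theorem nb_adj {G : SimpleGraph V} {w : ℕ} {v x : V} (h : x ∈ nb G w v) : G.Adj v x := by
  rw [mem_nb] at h
  obtain ⟨hne, K, hK, -, hv, hx⟩ := h
  exact hK (mem_coe.2 hv) (mem_coe.2 hx) hne.symm

theorem self_notMem_nb (G : SimpleGraph V) (w : ℕ) (v : V) : v ∉ nb G w v := by
  rw [mem_nb]
  exact fun h => h.1 rfl

/-- A monochromatic clique of size `w` through `v`. -/
def Bad (G : SimpleGraph V) (w : ℕ) (v : V) (f : V → Bool) : Prop :=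
  ∃ K : Finset V, G.IsClique (K : Set V) ∧ K.card = w ∧ v ∈ K ∧ ∀ x ∈ K, f x = f v

omit [Fintype V] [DecidableEq V] in
theorem clique_insert {G : SimpleGraph V} {K : Finset V} {v : V} [DecidableEq V]
    (hK : G.IsClique (K : Set V)) (hv : ∀ x ∈ K, G.Adj v x) :
    G.IsClique ((insert v K : Finset V) : Set V) := by
  intro x hx y hy hxy
  simp only [coe_insert, Set.mem_insert_iff, mem_coe] at hx hy
  rcases hx with rfl | hx
  · rcases hy with rfl | hy
    · exact absurd rfl hxy
    · exact hv y hy
  · rcases hy with rfl | hy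
    · exact (hv x hx).symm
    · exact hK (mem_coe.2 hx) (mem_coe.2 hy) hxy

theorem nb_max {G : SimpleGraph V} {w : ℕ}
    (hmax : ∀ K : Finset V, G.IsClique (K : Set V) → K.card ≤ w) (v : V) (K : Finset V)
    (hK : K ⊆ nb G w v) (hKc : G.IsClique (K : Set V)) : K.card ≤ w - 1 := by
  have h1 : v ∉ K := fun h => self_notMem_nb G w v (hK h)
  have h2 := hmax (insert v K) (clique_insert hKc (fun x hx => nb_adj (hK hx)))
  rw [Finset.card_insert_of_notMem h1] at h2
  omega

theorem ev_card (G : SimpleGraph V) (w : ℕ) (v : V) :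
    (ev (Bad G w) v).card * 2 ^ (nb G w v).card ≤
      (allfam G (nb G w v) (w - 1)).card * (univ : Finset (V → Bool)).card := by
  classical
  rw [← Finset.card_powerset, ← Finset.card_product, ← Finset.card_product]
  apply Finset.card_le_card_of_injOn
    (fun p : (V → Bool) × Finset V =>
      ((nb G w v).filter (fun x => p.1 x = p.1 v),
       (fun x => if x ∈ nb G w v then (if x ∈ p.2 then p.1 v else !(p.1 v)) else p.1 x :
          V → Bool)))
  · rintro ⟨f, T⟩ hfT
    simp only [coe_product, coe_univ, Set.mem_prod, mem_coe, Set.mem_univ, and_true] at hfT ⊢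
    rw [mem_ev] at hfT
    obtain ⟨⟨K, hK, hKw, hvK, hKf⟩, -⟩ := hfT
    rw [mem_allfam]
    refine ⟨Finset.filter_subset _ _, K.erase v, ?_, ?_, ?_⟩
    · intro x hx
      rw [mem_erase] at hx
      rw [mem_filter]
      refine ⟨?_, hKf x hx.2⟩
      rw [mem_nb]
      exact ⟨hx.1, K, hK, hKw, hvK, hx.2⟩
    · intro x hx y hy hxy
      simp only [coe_erase, Set.mem_sdiff, mem_coe, Set.mem_singleton_iff] at hx hy
      exact hK (mem_coe.2 hx.1) (mem_coe.2 hy.1) hxy
    · rw [Finset.card_erase_of_mem hvK, hKw]
  · rintro ⟨f, T⟩ hfT ⟨f', T'⟩ hfT' heq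
    simp only [coe_product, Set.mem_prod, mem_coe, mem_powerset] at hfT hfT'
    simp only [Prod.mk.injEq] at heq
    obtain ⟨h1, h2⟩ := heq
    have hvn := self_notMem_nb G w v
    have hv : f v = f' v := by
      have := congrFun h2 v
      simpa [hvn] using this
    have hf : f = f' := by
      funext x
      by_cases hx : x ∈ nb G w v
      · have h3 : (f x = f v) ↔ (f' x = f' v) := by
          have := Finset.ext_iff.1 h1 x
          simpa [hx] using this
        rw [hv] at h3
        by_cases h4 : f' x = f' v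
        · rw [h3.2 h4, h4]
        · have h5 : ¬ f x = f' v := fun h => h4 (h3.1 h)
          cases hb : f' v <;> cases hc : f' x <;> cases hd : f x <;> simp_all
      · have := congrFun h2 x
        simpa [hx] using this
    subst hf
    have hT : T = T' := by
      ext x
      by_cases hx : x ∈ nb G w v
      · have h3 := congrFun h2 x
        simp only [hx, if_true] at h3
        by_cases hxT : x ∈ T
        · by_cases hxT' : x ∈ T'
          · exact ⟨fun _ => hxT', fun _ => hxT⟩
          · simp [hxT, hxT'] at h3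
        · by_cases hxT' : x ∈ T'
          · simp [hxT, hxT'] at h3
          · exact ⟨fun h => absurd h hxT, fun h => absurd h hxT'⟩
      · exact ⟨fun h => absurd (hfT.2 h) hx, fun h => absurd (hfT'.2 h) hx⟩
    rw [hT]

end Pool.Agent.W_2414c2_h93
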